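import Pool.Agent.MCI.Defs

/-!
# Monte Carlo error: basic facts
-/

open MeasureTheory
open scoped ENNReal

noncomputable section

namespace Pool.Agent.MCI

open Pool.Agent.Helper59.MixInt

/-- The upper integral of a measurable function is its integral. -/
lemma upperInt_eq {Ω : Type*} [MeasurableSpace Ω] (μ : Measure Ω) {g : Ω → ℝ≥0∞}
    (hg : Measurable g) : upperInt μ g = ∫⁻ ω, g ω ∂μ := by
  apply le_antisymm
  · exact iInf_le_of_le g (iInf_le_of_le hg (iInf_le_of_le (fun _ => le_rfl) le_rfl))
  · exact le_iInf fun G => le_iInf fun _ => le_iInf fun hle => lintegral_mono hle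

lemma measurable_out {d n : ℕ} {A : RandAlg d n} (hA : IsMeas A) {f : Tor d → ℝ}
    (hf : Continuous f) : Measurable fun ω => A.out ω f := by
  have h1 : Measurable fun ω : A.Ω => (ω, fun i => f (A.pts ω i)) := by
    apply Measurable.prodMk measurable_id
    exact measurable_pi_lambda _ fun i =>
      hf.measurable.comp ((measurable_pi_apply i).comp A.meas)
  exact hA.comp h1

lemma measurable_err {d n : ℕ} {A : RandAlg d n} (hA : IsMeas A) {f : Tor d → ℝ}
    (hf : Continuous f) : Measurable fun ω => ENNReal.ofReal |integ f - A.out ω f| :=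
  ENNReal.measurable_ofReal.comp (measurable_const.sub (measurable_out hA hf)).abs

/-- For algorithms with a measurable random mapping the error is given by plain integrals. -/
lemma errRan_eq {d n : ℕ} {k : ℝ} {A : RandAlg d n} (hA : IsMeas A) :
    errRan k A = ⨆ f ∈ mixBall d k, ∫⁻ ω, ENNReal.ofReal |integ f - A.out ω f| ∂A.μ := by
  unfold errRan
  refine iSup_congr fun f => iSup_congr fun hf => ?_
  exact upperInt_eq _ (measurable_err hA hf.1)

/-- To bound `e^ran(n)` from above it suffices to give one algorithm. -/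
lemma eRan_le_of {d n : ℕ} {k : ℝ} {B : ℝ≥0∞} (A : RandAlg d n) (hA : IsMeas A)
    (h : ∀ f ∈ mixBall d k, ∫⁻ ω, ENNReal.ofReal |integ f - A.out ω f| ∂A.μ ≤ B) :
    eRan d k n ≤ B := by
  refine iInf_le_of_le A (iInf_le_of_le hA ?_)
  rw [errRan_eq hA]
  exact iSup₂_le h

/-- To bound `e^ran(𝒫_n)` from below consider every measurable algorithm. -/
lemma le_eRanIID_of {d n : ℕ} {k : ℝ} {B : ℝ≥0∞}
    (h : ∀ A : RandAlg d n, IsMeas A → A.IsIID →
      B ≤ ⨆ f ∈ mixBall d k, ∫⁻ ω, ENNReal.ofReal |integ f - A.out ω f| ∂A.μ) :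
    B ≤ eRanIID d k n := by
  refine le_iInf fun A => le_iInf fun hA => le_iInf fun hI => ?_
  rw [errRan_eq hA]
  exact h A hA hI

end Pool.Agent.MCI
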