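import Pool.Agent.MCI.Final
import Pool.Agent.Helper6.MixRan.Defs

/-!
# The two forms of the Monte Carlo error agree
-/

open MeasureTheory Filter Topology
open scoped ENNReal

noncomputable section

namespace Pool.Agent.MCI

open Pool.Agent.Helper59.MixInt Pool.Agent.Helper6

lemma eRan_eq (d : ℕ) (k : ℝ) (n : ℕ) : MixRan.eRan d k n = eRan d k n := by
  unfold MixRan.eRan eRan
  refine iInf_congr fun A => iInf_congr fun hA => ?_
  rw [errRan_eq hA]
  rfl

lemma eRanIID_eq (d : ℕ) (k : ℝ) (n : ℕ) : MixRan.eRanIID d k n = eRanIID d k n := by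
  unfold MixRan.eRanIID eRanIID
  refine iInf_congr fun A => iInf_congr fun hA => iInf_congr fun _ => ?_
  rw [errRan_eq hA]
  rfl

end Pool.Agent.MCI
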