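import Pool.Agent.Helper59.MixInt.Defs

/-!
# The Monte Carlo error of randomized algorithms on spaces of mixed smoothness: definitions
-/

open MeasureTheory
open scoped ENNReal

noncomputable section

namespace Pool.Agent.MCI

open Pool.Agent.Helper59.MixInt

/-- The random mapping `φ` of the algorithm is measurable (jointly in the random element and in
the vector of function values). -/
def IsMeas {d n : ℕ} (A : RandAlg d n) : Prop :=
  Measurable fun q : A.Ω × (Fin n → ℝ) => A.φ q.1 q.2

/-- The Monte Carlo error `sup_{‖f‖ ≤ 1} 𝔼 |S(f) - A(f)|`. -/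
def errRan {d n : ℕ} (k : ℝ) (A : RandAlg d n) : ℝ≥0∞ :=
  ⨆ f ∈ mixBall d k, upperInt A.μ fun ω => ENNReal.ofReal |integ f - A.out ω f|

/-- `e^ran(n)`: the smallest Monte Carlo error over all random point sets with at most `n` points
and all algorithms. -/
def eRan (d : ℕ) (k : ℝ) (n : ℕ) : ℝ≥0∞ :=
  ⨅ (A : RandAlg d n) (_ : IsMeas A), errRan k A

/-- `e^ran(𝒫_n)`: the smallest Monte Carlo error of algorithms that use `n` independent uniformly
distributed points. -/
def eRanIID (d : ℕ) (k : ℝ) (n : ℕ) : ℝ≥0∞ :=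
  ⨅ (A : RandAlg d n) (_ : IsMeas A) (_ : A.IsIID), errRan k A

end Pool.Agent.MCI
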