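import Pool.Agent.MCI.Basic

/-!
# Monte Carlo error: the negative answer from an upper and a lower bound
-/

open MeasureTheory Filter Topology
open scoped ENNReal

noncomputable section

namespace Pool.Agent.MCI

open Pool.Agent.Helper59.MixInt

/-- `a_n ≍ b_n`: `c b_n ≤ a_n ≤ C b_n` for all large `n`, with positive constants. -/
def AsympEq (a b : ℕ → ℝ≥0∞) : Prop :=
  ∃ c C : ℝ, 0 < c ∧ 0 < C ∧
    ∀ᶠ n in atTop, ENNReal.ofReal c * b n ≤ a n ∧ a n ≤ ENNReal.ofReal C * b n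

/-- The two bounds give the growing ratio. -/
lemma bounds_of {k γ : ℝ}
    (hU : ∃ C : ℝ, 0 < C ∧ ∀ᶠ n : ℕ in atTop,
      eRan 2 k n ≤ ENNReal.ofReal (C * (n : ℝ) ^ (-(k + 1 / 2))))
    (hL : ∃ c : ℝ, 0 < c ∧ ∀ᶠ n : ℕ in atTop,
      ENNReal.ofReal (c * ((n : ℝ) ^ (-(k + 1 / 2)) * (Real.log n) ^ γ)) ≤ eRanIID 2 k n) :
    ∃ c C : ℝ, 0 < c ∧ 0 < C ∧
      (∀ᶠ n : ℕ in atTop, eRan 2 k n ≤ ENNReal.ofReal (C * (n : ℝ) ^ (-(k + 1 / 2)))) ∧
      (∀ᶠ n : ℕ in atTop,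
        ENNReal.ofReal (c * ((n : ℝ) ^ (-(k + 1 / 2)) * (Real.log n) ^ γ)) ≤ eRanIID 2 k n) ∧
      (∀ᶠ n : ℕ in atTop,
        ENNReal.ofReal (c * (Real.log n) ^ γ) * eRan 2 k n < eRanIID 2 k n) := by
  obtain ⟨C, hC, hup⟩ := hU
  obtain ⟨c₀, hc₀, hlow⟩ := hL
  set c : ℝ := min c₀ (c₀ / (2 * C)) with hc
  have hcpos : 0 < c := lt_min hc₀ (by positivity)
  have hbig : ∀ᶠ n : ℕ in atTop, 1 ≤ Real.log n :=
    (Real.tendsto_log_atTop.comp tendsto_natCast_atTop_atTop).eventually_ge_atTop _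
  refine ⟨c, C, hcpos, hC, hup, ?_, ?_⟩
  · filter_upwards [hlow, hbig] with n h1 hn
    refine le_trans (ENNReal.ofReal_le_ofReal ?_) h1
    have : 0 ≤ Real.log n := by linarith
    exact mul_le_mul_of_nonneg_right (min_le_left _ _) (by positivity)
  · filter_upwards [hlow, hup, hbig, eventually_ge_atTop 1] with n h1 h2 hn hn1
    have hlog : 0 < Real.log n := by linarith
    have hn0 : (0 : ℝ) < n := by exact_mod_cast hn1
    calc ENNReal.ofReal (c * (Real.log n) ^ γ) * eRan 2 k n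
        ≤ ENNReal.ofReal (c * (Real.log n) ^ γ) *
          ENNReal.ofReal (C * (n : ℝ) ^ (-(k + 1 / 2))) := by gcongr
      _ = ENNReal.ofReal (c * (Real.log n) ^ γ * (C * (n : ℝ) ^ (-(k + 1 / 2)))) := by
          rw [← ENNReal.ofReal_mul (by positivity)]
      _ < ENNReal.ofReal (c₀ * ((n : ℝ) ^ (-(k + 1 / 2)) * (Real.log n) ^ γ)) := by
          rw [ENNReal.ofReal_lt_ofReal_iff (by positivity)]
          have e : c * (Real.log n) ^ γ * (C * (n : ℝ) ^ (-(k + 1 / 2))) =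
              (c * C) * ((n : ℝ) ^ (-(k + 1 / 2)) * (Real.log n) ^ γ) := by ring
          rw [e]
          apply mul_lt_mul_of_pos_right _ (by positivity)
          have h3 : c * C ≤ c₀ / (2 * C) * C :=
            mul_le_mul_of_nonneg_right (min_le_right _ _) hC.le
          have h4 : c₀ / (2 * C) * C = c₀ / 2 := by field_simp
          linarith
      _ ≤ eRanIID 2 k n := h1

/-- A growing ratio for one `k` refutes the assertion of the question. -/
lemma not_asympEq_of {k γ : ℝ} (hk : 1 / 2 < k) (hγ : 0 < γ)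
    (h : ∃ c : ℝ, 0 < c ∧ ∀ᶠ n : ℕ in atTop,
        ENNReal.ofReal (c * (Real.log n) ^ γ) * eRan 2 k n < eRanIID 2 k n) :
    ¬ ∀ (d : ℕ) (k : ℝ), 1 ≤ d → 1 / 2 < k → AsympEq (eRanIID d k) (eRan d k) := by
  intro hall
  obtain ⟨c, hc, hratio⟩ := h
  obtain ⟨c', C', hc', hC', hev⟩ := hall 2 k (by norm_num) hk
  have hlogt : Tendsto (fun n : ℕ => c * (Real.log n) ^ γ) atTop atTop :=
    ((tendsto_rpow_atTop hγ).comp
      (Real.tendsto_log_atTop.comp tendsto_natCast_atTop_atTop)).const_mul_atTop hc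
  obtain ⟨n, h1, h2, h3⟩ := (hev.and (hratio.and (hlogt.eventually_ge_atTop C'))).exists
  have h4 : ENNReal.ofReal C' * eRan 2 k n ≤
      ENNReal.ofReal (c * (Real.log n) ^ γ) * eRan 2 k n := by gcongr
  exact absurd (h1.2.trans h4) (not_le.2 h2)

end Pool.Agent.MCI
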