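import Pool.Agent.Helper6.MixRan.Assemble
import Pool.Agent.Helper6.MixRan.Params
import Pool.Agent.Helper6.MixRan.Fool2
import Pool.Agent.Helper6.MixRan.Expect2
import Pool.Agent.MCI.Bridge

open MeasureTheory Filter Topology
open scoped ENNReal

noncomputable section

namespace Pool.Agent.MCI

open Pool.Agent.Helper59.MixInt Pool.Agent.Helper6

theorem eRanIID_ge : ∃ c : ℝ, 0 < c ∧ ∀ᶠ n : ℕ in atTop,
    ENNReal.ofReal (c * ((n : ℝ) ^ (-(5 / 4) : ℝ) * (Real.log n) ^ (1 / 16 : ℝ))) ≤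
      MixRan.eRanIID 2 MixRan.k₀ n := by
  have hCK := MixRan.CK_pos
  refine ⟨1 / (64 * Real.sqrt (6 * MixRan.CK)), by positivity, ?_⟩
  have hbig : ∀ᶠ n : ℕ in atTop, 82944 ≤ Real.log n :=
    (Real.tendsto_log_atTop.comp tendsto_natCast_atTop_atTop).eventually_ge_atTop _
  filter_upwards [hbig] with n hn
  obtain ⟨r, m₀, M, hn0, hmM, h2n, hR, hM, hb⟩ := MixRan.params hn
  have hL : 0 < Real.log n := by linarith
  have hn' : (0 : ℝ) < n := by exact_mod_cast hn0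
  obtain ⟨G, hGm, hGsub, hG2⟩ := MixRan.exists_good2 (r := r) hn0 (by omega) m₀ M hM
  have h1 := MixRan.eRanIID_ge_of (n := n) (r := r) (m₀ := m₀) (M := M)
    (K := MixRan.CK * ((n : ℝ) ^ (5 / 2 : ℝ) * (Real.log n) ^ (-(1 / 8) : ℝ))) (by positivity)
    G hGm hG2 (by
      intro P hP
      obtain ⟨w, hw1, hw2, hw3⟩ := MixRan.fool2 hn0 hmM h2n hR (hGsub hP)
      exact ⟨w, hw1, hw2, hw3.trans hb⟩)
  refine le_trans (le_of_eq ?_) h1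
  congr 1
  have e1 : Real.sqrt (6 * (MixRan.CK * ((n : ℝ) ^ (5 / 2 : ℝ) * (Real.log n) ^ (-(1 / 8) : ℝ)))) =
      Real.sqrt (6 * MixRan.CK) * ((n : ℝ) ^ (5 / 4 : ℝ) * (Real.log n) ^ (-(1 / 16) : ℝ)) := by
    rw [← mul_assoc, Real.sqrt_mul (by positivity)]
    congr 1
    have e0 : (n : ℝ) ^ (5 / 2 : ℝ) * (Real.log n) ^ (-(1 / 8) : ℝ) =
        ((n : ℝ) ^ (5 / 4 : ℝ) * (Real.log n) ^ (-(1 / 16) : ℝ)) ^ 2 := by
      rw [sq, mul_mul_mul_comm, ← Real.rpow_add hn', ← Real.rpow_add hL]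
      norm_num
    rw [e0, Real.sqrt_sq (by positivity)]
  have e2 : (n : ℝ) ^ (-(5 / 4) : ℝ) = ((n : ℝ) ^ (5 / 4 : ℝ))⁻¹ := Real.rpow_neg hn'.le _
  have e3 : (Real.log n) ^ (-(1 / 16) : ℝ) = ((Real.log n) ^ (1 / 16 : ℝ))⁻¹ :=
    Real.rpow_neg hL.le _
  rw [e1, e2, e3]
  have p1 : (n : ℝ) ^ (5 / 4 : ℝ) ≠ 0 := (Real.rpow_pos_of_pos hn' _).ne'
  have p2 : (Real.log n) ^ (1 / 16 : ℝ) ≠ 0 := (Real.rpow_pos_of_pos hL _).ne'
  have p3 : Real.sqrt (6 * MixRan.CK) ≠ 0 := (Real.sqrt_pos.2 (by positivity)).ne'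
  field_simp

end Pool.Agent.MCI
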