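import Pool.Agent.Helper7.ER.Pts
import Pool.Agent.Helper59.MixInt.Rule
import Pool.Agent.MCI.Basic

/-!
# Upper bound for the optimal Monte Carlo error, `d = 2` (helper7)

Scrambled Hammersley points with a uniform shift: `e^ran(n) ≤ C n ^ (-(k + 1 / 2))`, `1 / 2 < k < 1`.
-/

set_option autoImplicit false

open MeasureTheory UnitAddTorus
open scoped ENNReal

noncomputable section

namespace Pool.Agent.Helper7.ER

open Pool.Agent.Helper59.MixInt

/-- the scrambled points on the torus -/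
def pnt (M m : ℕ) (s : Scr M × Scr M) (i : ℕ) : Tor 2 := fun j =>
  (((if j = 0 then X M s.1 (bits m i).reverse else X M s.2 (bits m i)) : ℝ) : UnitAddCircle)

theorem fourier_ex (n : ℤ) (x : ℝ) : fourier n ((x : ℝ) : UnitAddCircle) = ex (n * x) := by
  rw [fourier_coe_apply, ex]
  congr 1
  push_cast
  ring

theorem mFourier_pnt (M m : ℕ) (s : Scr M × Scr M) (i : ℕ) (h : Fin 2 → ℤ) :
    mFourier h (pnt M m s i) =
      ex (h 0 * X M s.1 (bits m i).reverse) * ex (h 1 * X M s.2 (bits m i)) := by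
  simp only [mFourier, ContinuousMap.coe_mk, Fin.prod_univ_two, pnt]
  rw [fourier_ex, fourier_ex]
  simp

theorem coeff_trans {f : Tor 2 → ℝ} (y : Tor 2) (h : Fin 2 → ℤ) :
    mFourierCoeff (fun Δ => (f (y + Δ) : ℂ)) h = mFourier h y * mFourierCoeff (fun x => (f x : ℂ)) h := by
  rw [mFourierCoeff_eq, mFourierCoeff_eq]
  have h1 : mFourier h y * mFourier (-h) y = 1 := by
    rw [← mFourier_neg_apply, ← mFourier_add_apply, add_neg_cancel, mFourier_zero_apply]
  have h2 : ∀ Δ : Tor 2, mFourier (-h) Δ * (f (y + Δ) : ℂ) =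
      mFourier h y * (mFourier (-h) (y + Δ) * (f (y + Δ) : ℂ)) := by
    intro Δ
    rw [mFourier_add_apply]
    linear_combination (-(mFourier (-h) Δ * (f (y + Δ) : ℂ))) * h1
  simp only [h2]
  rw [integral_const_mul]
  congr 1
  exact integral_add_left_eq_self (μ := unif 2) (fun x => mFourier (-h) x * (f x : ℂ)) y

/-- the error as a function of the shift -/
def gerr (f : Tor 2 → ℝ) (M m : ℕ) (s : Scr M × Scr M) (Δ : Tor 2) : ℝ :=
  integ f - (∑ i ∈ Finset.range (2 ^ m), f (pnt M m s i + Δ)) / 2 ^ m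

theorem continuous_gerr {f : Tor 2 → ℝ} (hf : Continuous f) (M m : ℕ) (s : Scr M × Scr M) :
    Continuous (gerr f M m s) := by
  unfold gerr
  fun_prop

theorem coeff_gerr {f : Tor 2 → ℝ} (hf : Continuous f) (M m : ℕ) (s : Scr M × Scr M) (h : Fin 2 → ℤ) :
    mFourierCoeff (fun Δ => (gerr f M m s Δ : ℂ)) h = (if h = 0 then (integ f : ℂ) else 0) -
      wch M m s (h 0) (h 1) * mFourierCoeff (fun x => (f x : ℂ)) h := by
  have hi : ∀ i : ℕ, Integrable (fun Δ : Tor 2 => mFourier (-h) Δ * (f (pnt M m s i + Δ) : ℂ)) (unif 2) := by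
    intro i
    have : Continuous (fun Δ : Tor 2 => mFourier (-h) Δ * (f (pnt M m s i + Δ) : ℂ)) := by
      have h1 : Continuous (fun Δ : Tor 2 => f (pnt M m s i + Δ)) := by fun_prop
      exact (mFourier (-h)).continuous.mul (Complex.continuous_ofReal.comp h1)
    exact this.integrable_of_hasCompactSupport (HasCompactSupport.of_compactSpace _)
  rw [mFourierCoeff_eq]
  have e1 : ∀ Δ : Tor 2, mFourier (-h) Δ * (gerr f M m s Δ : ℂ) = mFourier (-h) Δ * (integ f : ℂ) -
      (∑ i ∈ Finset.range (2 ^ m), mFourier (-h) Δ * (f (pnt M m s i + Δ) : ℂ)) / 2 ^ m := by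
    intro Δ
    unfold gerr
    push_cast
    rw [mul_sub, mul_div_assoc', Finset.mul_sum]
  simp only [e1]
  rw [integral_sub, integral_div, integral_finsetSum _ fun i _ => hi i, integral_mul_const, integral_mFourier]
  · have e2 : ∀ i : ℕ, ∫ Δ, mFourier (-h) Δ * (f (pnt M m s i + Δ) : ℂ) ∂(unif 2) =
        (ex (h 0 * X M s.1 (bits m i).reverse) * ex (h 1 * X M s.2 (bits m i))) *
          mFourierCoeff (fun x => (f x : ℂ)) h := by
      intro i
      have := coeff_trans (f := f) (pnt M m s i) h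
      rw [mFourierCoeff_eq, mFourier_pnt] at this
      exact this
    simp only [e2, ← Finset.sum_mul]
    have e3 : (if -h = 0 then (1 : ℂ) else 0) * (integ f : ℂ) = if h = 0 then (integ f : ℂ) else 0 := by
      by_cases h0 : h = 0
      · simp [h0]
      · simp [h0]
    rw [e3, wch]
    ring
  · have : Continuous (fun Δ : Tor 2 => mFourier (-h) Δ * (integ f : ℂ)) :=
      (mFourier (-h)).continuous.mul continuous_const
    exact this.integrable_of_hasCompactSupport (HasCompactSupport.of_compactSpace _)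
  · exact (integrable_finsetSum _ fun i _ => hi i).div_const _

theorem parseval {G : Tor 2 → ℝ} (hG : Continuous G) :
    HasSum (fun h => ‖mFourierCoeff (fun x => (G x : ℂ)) h‖ ^ 2) (∫ x, G x ^ 2 ∂(unif 2)) := by
  obtain ⟨B, hB⟩ := (isCompact_univ (X := Tor 2)).exists_bound_of_continuousOn (f := G) hG.continuousOn
  have h1 := tsum_sq_coeff hG.measurable (B := B) fun x => by
    have := hB x (Set.mem_univ x)
    rwa [Real.norm_eq_abs] at this
  have h0 : 0 ≤ ∫ x, G x ^ 2 ∂(unif 2) := integral_nonneg fun x => sq_nonneg _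
  have h2 : Summable (fun h => ‖mFourierCoeff (fun x => (G x : ℂ)) h‖ ^ 2) := by
    refine (ENNReal.summable_toReal (f := fun h => ENNReal.ofReal
      (‖mFourierCoeff (fun x => (G x : ℂ)) h‖ ^ 2)) (by rw [h1]; exact ENNReal.ofReal_ne_top)).congr ?_
    intro h
    rw [ENNReal.toReal_ofReal (by positivity)]
  have h3 := h2.hasSum
  rw [← ENNReal.ofReal_tsum_of_nonneg (fun h => by positivity) h2] at h1
  have h4 : ∑' h, ‖mFourierCoeff (fun x => (G x : ℂ)) h‖ ^ 2 = ∫ x, G x ^ 2 ∂(unif 2) := by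
    have h5 : 0 ≤ ∑' h, ‖mFourierCoeff (fun x => (G x : ℂ)) h‖ ^ 2 := tsum_nonneg fun h => by positivity
    exact (ENNReal.ofReal_eq_ofReal_iff h5 h0).1 h1
  rwa [h4] at h3

/-- the mean square of the error -/
def BB (k : ℝ) (m : ℕ) : ℝ := CC k / ((2 ^ m) ^ (2 * k) * 2 ^ m)

theorem BB_pos {k : ℝ} (hk1 : k < 1) (m : ℕ) : 0 < BB k m := by
  have := CC_pos hk1
  unfold BB
  positivity

theorem norm_wch_le (M m : ℕ) (s : Scr M × Scr M) (u v : ℝ) : ‖wch M m s u v‖ ≤ 1 := by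
  have he : ∀ t : ℝ, ‖ex t‖ = 1 := fun t => Complex.norm_exp_ofReal_mul_I _
  unfold wch
  rw [norm_div]
  have h1 : ‖∑ i ∈ Finset.range (2 ^ m), ex (u * X M s.1 (bits m i).reverse) * ex (v * X M s.2 (bits m i))‖ ≤
      2 ^ m := by
    refine (norm_sum_le _ _).trans ?_
    simp only [norm_mul, he, mul_one, Finset.sum_const, Finset.card_range, nsmul_eq_mul]
    push_cast
    exact le_rfl
  have h2 : ‖(2 : ℂ) ^ m‖ = 2 ^ m := by rw [norm_pow]; norm_num
  rw [h2, div_le_one (by positivity)]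
  exact h1

/-- mean square of the character sum, every frequency -/
theorem mean_sq_le {k : ℝ} (hk : 1 / 2 < k) (hk1 : k < 1) (m : ℕ) {h : Fin 2 → ℤ} (hh : h ≠ 0) :
    ∑ s : Scr (2 * m) × Scr (2 * m), ‖wch (2 * m) m s (h 0) (h 1)‖ ^ 2 ≤
      (Fintype.card (Scr (2 * m) × Scr (2 * m)) : ℝ) * (BB k m * wt k h) := by
  have hK : (0 : ℝ) < (Fintype.card (Scr (2 * m) × Scr (2 * m)) : ℝ) := by exact_mod_cast Fintype.card_pos
  have hwt : wt k h = (1 + (h 0 : ℝ) ^ 2) ^ k * (1 + (h 1 : ℝ) ^ 2) ^ k := by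
    unfold wt
    rw [Fin.prod_univ_two]
  have hC := CC_pos hk1
  by_cases hb : |h 0| < 2 ^ (2 * m) ∧ |h 1| < 2 ^ (2 * m)
  · have h1 := mean_sq (2 * m) m (by omega) (h 0) (h 1)
    have hne : h 0 ≠ 0 ∨ h 1 ≠ 0 := by
      by_contra hc
      push Not at hc
      apply hh
      funext j
      fin_cases j
      · exact hc.1
      · exact hc.2
    have h2 := WW_bound hk hk1 (m := m) (M := 2 * m) hne hb.1 hb.2
    rw [div_eq_iff hK.ne'] at h1
    rw [h1, mul_comm]
    refine mul_le_mul_of_nonneg_left ?_ hK.le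
    have h3 := div_le_div_of_nonneg_right h2 (show (0 : ℝ) ≤ 2 ^ m by positivity)
    refine h3.trans (le_of_eq ?_)
    rw [hwt]
    unfold BB
    field_simp
  · have h1 : ∑ s : Scr (2 * m) × Scr (2 * m), ‖wch (2 * m) m s (h 0) (h 1)‖ ^ 2 ≤
        (Fintype.card (Scr (2 * m) × Scr (2 * m)) : ℝ) * 1 := by
      calc _ ≤ ∑ s : Scr (2 * m) × Scr (2 * m), (1 : ℝ) := by
            refine Finset.sum_le_sum fun s _ => ?_
            have := norm_wch_le (2 * m) m s (h 0) (h 1)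
            have h0 := norm_nonneg (wch (2 * m) m s (h 0) (h 1))
            nlinarith
        _ = _ := by simp
    refine h1.trans (mul_le_mul_of_nonneg_left ?_ hK.le)
    -- the weight is large
    have hw : ((2 : ℝ) ^ m) ^ (4 * k) ≤ wt k h := by
      have one : ∀ z : ℤ, (1 : ℝ) ≤ (1 + (z : ℝ) ^ 2) ^ k := fun z =>
        Real.one_le_rpow (by nlinarith [sq_nonneg (z : ℝ)]) (by linarith)
      have big : ∀ z : ℤ, ¬ |z| < 2 ^ (2 * m) → ((2 : ℝ) ^ m) ^ (4 * k) ≤ (1 + (z : ℝ) ^ 2) ^ k := by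
        intro z hz
        push Not at hz
        have hz' : (2 : ℝ) ^ (2 * m) ≤ |(z : ℝ)| := by exact_mod_cast hz
        have e : ((2 : ℝ) ^ m) ^ (4 * k) = (((2 : ℝ) ^ (2 * m)) ^ 2) ^ k := by
          rw [← pow_mul, ← Real.rpow_natCast 2 m, ← Real.rpow_mul (by norm_num), ← Real.rpow_natCast,
            ← Real.rpow_mul (by norm_num)]
          congr 1
          push_cast
          ring
        rw [e]
        refine Real.rpow_le_rpow (by positivity) ?_ (by linarith)
        have : ((2 : ℝ) ^ (2 * m)) ^ 2 ≤ |(z : ℝ)| ^ 2 := pow_le_pow_left₀ (by positivity) hz' 2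
        rw [sq_abs] at this
        linarith
      rw [hwt]
      rw [not_and_or] at hb
      rcases hb with h0 | h0
      · calc ((2 : ℝ) ^ m) ^ (4 * k) = ((2 : ℝ) ^ m) ^ (4 * k) * 1 := (mul_one _).symm
          _ ≤ _ := mul_le_mul (big _ h0) (one _) zero_le_one (by positivity)
      · calc ((2 : ℝ) ^ m) ^ (4 * k) = 1 * ((2 : ℝ) ^ m) ^ (4 * k) := (one_mul _).symm
          _ ≤ _ := mul_le_mul (one _) (big _ h0) (by positivity) (by positivity)
    have hN1 : (1 : ℝ) ≤ 2 ^ m := one_le_pow₀ (by norm_num)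
    have hD : ((2 : ℝ) ^ m) ^ (2 * k) * 2 ^ m ≤ ((2 : ℝ) ^ m) ^ (4 * k) := by
      have e : ((2 : ℝ) ^ m) ^ (2 * k) * 2 ^ m = ((2 : ℝ) ^ m) ^ (2 * k + 1) := by
        rw [Real.rpow_add (by positivity), Real.rpow_one]
      rw [e]
      exact Real.rpow_le_rpow_of_exponent_le hN1 (by linarith)
    have hD0 : 0 < ((2 : ℝ) ^ m) ^ (2 * k) * 2 ^ m := by positivity
    have hC1 : 1 ≤ CC k := by
      have := CS_pos hk1
      unfold CC
      linarith
    unfold BB
    rw [div_mul_eq_mul_div, le_div_iff₀ hD0, one_mul]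
    calc ((2 : ℝ) ^ m) ^ (2 * k) * 2 ^ m ≤ wt k h := hD.trans hw
      _ = 1 * wt k h := (one_mul _).symm
      _ ≤ CC k * wt k h := mul_le_mul_of_nonneg_right hC1 (wt_pos k h).le

/-- the mean square error over scramblings and shifts -/
theorem mean_err {k : ℝ} (hk : 1 / 2 < k) (hk1 : k < 1) (m : ℕ) {f : Tor 2 → ℝ} (hf : f ∈ mixBall 2 k) :
    ∑ s : Scr (2 * m) × Scr (2 * m), ∫ Δ, gerr f (2 * m) m s Δ ^ 2 ∂(unif 2) ≤
      (Fintype.card (Scr (2 * m) × Scr (2 * m)) : ℝ) * BB k m := by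
  have hK : (0 : ℝ) < (Fintype.card (Scr (2 * m) × Scr (2 * m)) : ℝ) := by exact_mod_cast Fintype.card_pos
  have h1 : ∀ s : Scr (2 * m) × Scr (2 * m),
      HasSum (fun h => ‖mFourierCoeff (fun Δ => (gerr f (2 * m) m s Δ : ℂ)) h‖ ^ 2)
        (∫ Δ, gerr f (2 * m) m s Δ ^ 2 ∂(unif 2)) := by
    intro s
    exact parseval (continuous_gerr hf.1 (2 * m) m s)
  have h2 := hasSum_sum (s := Finset.univ) fun s _ => h1 s
  refine hasSum_le_of_sum_le h2 fun u => ?_
  have h3 : ∀ h ∈ u, ∑ s : Scr (2 * m) × Scr (2 * m),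
      ‖mFourierCoeff (fun Δ => (gerr f (2 * m) m s Δ : ℂ)) h‖ ^ 2 ≤
      (Fintype.card (Scr (2 * m) × Scr (2 * m)) : ℝ) * BB k m *
        (‖mFourierCoeff (fun x => (f x : ℂ)) h‖ ^ 2 * wt k h) := by
    intro h _
    by_cases h0 : h = 0
    · subst h0
      have : ∀ s : Scr (2 * m) × Scr (2 * m),
          mFourierCoeff (fun Δ => (gerr f (2 * m) m s Δ : ℂ)) 0 = 0 := by
        intro s
        rw [coeff_gerr hf.1, if_pos rfl, integ_eq_coeff]
        have hw : wch (2 * m) m s ((0 : Fin 2 → ℤ) 0 : ℝ) ((0 : Fin 2 → ℤ) 1 : ℝ) = 1 := by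
          unfold wch
          simp [ex_zero]
        have e0 : (((0 : Fin 2 → ℤ) 0 : ℤ) : ℝ) = ((0 : Fin 2 → ℤ) 0 : ℝ) := rfl
        rw [hw, one_mul, sub_self]
      simp only [this, norm_zero]
      have hB := BB_pos hk1 m
      have hw := wt_pos k (0 : Fin 2 → ℤ)
      simp only [ne_eq, OfNat.ofNat_ne_zero, not_false_eq_true, zero_pow, Finset.sum_const_zero]
      positivity
    · have e : ∀ s : Scr (2 * m) × Scr (2 * m),
          ‖mFourierCoeff (fun Δ => (gerr f (2 * m) m s Δ : ℂ)) h‖ ^ 2 =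
          ‖wch (2 * m) m s (h 0) (h 1)‖ ^ 2 * ‖mFourierCoeff (fun x => (f x : ℂ)) h‖ ^ 2 := by
        intro s
        rw [coeff_gerr hf.1, if_neg h0, zero_sub, norm_neg, norm_mul, mul_pow]
      simp only [e, ← Finset.sum_mul]
      have h4 := mul_le_mul_of_nonneg_right (mean_sq_le hk hk1 m h0)
        (sq_nonneg ‖mFourierCoeff (fun x => (f x : ℂ)) h‖)
      refine h4.trans (le_of_eq (by ring))
  have h5 := Finset.sum_le_sum h3
  rw [← Finset.mul_sum] at h5
  refine h5.trans ?_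
  have h6 : (0 : ℝ) ≤ (Fintype.card (Scr (2 * m) × Scr (2 * m)) : ℝ) * BB k m :=
    mul_nonneg hK.le (BB_pos hk1 m).le
  exact mul_le_of_le_one_right h6 (sum_sq_le hf u)

instance (M : ℕ) : MeasurableSpace (Scr M) := ⊤

instance (M : ℕ) : DiscreteMeasurableSpace (Scr M) := ⟨fun _ => trivial⟩

/-- the uniform law on pairs of scramblings -/
def uni (M : ℕ) : Measure (Scr M × Scr M) :=
  (Fintype.card (Scr M × Scr M) : ℝ≥0∞)⁻¹ • Measure.count

instance (M : ℕ) : IsProbabilityMeasure (uni M) := by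
  constructor
  have h0 : (Fintype.card (Scr M × Scr M) : ℝ≥0∞) ≠ 0 := by
    simp only [ne_eq, Nat.cast_eq_zero]
    exact Fintype.card_ne_zero
  rw [uni, Measure.smul_apply, Measure.count_apply MeasurableSet.univ, smul_eq_mul]
  have : (Set.univ : Set (Scr M × Scr M)).encard = (Fintype.card (Scr M × Scr M) : ℕ∞) := by
    rw [Set.encard_univ, ENat.card_eq_coe_fintype_card]
  rw [this]
  exact ENNReal.inv_mul_cancel h0 (ENNReal.natCast_ne_top _)

/-- scrambled Hammersley points with a uniform shift, as an algorithm -/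
def alg (n m : ℕ) : RandAlg 2 n where
  Ω := (Scr (2 * m) × Scr (2 * m)) × Tor 2
  mΩ := inferInstance
  μ := (uni (2 * m)).prod (unif 2)
  prob := inferInstance
  pts ω i := if (i : ℕ) < 2 ^ m then pnt (2 * m) m ω.1 i + ω.2 else 0
  meas := by
    refine measurable_pi_lambda _ fun i => ?_
    split_ifs
    · exact ((measurable_of_finite (fun s : Scr (2 * m) × Scr (2 * m) => pnt (2 * m) m s i)).comp
        measurable_fst).add measurable_snd
    · exact measurable_const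
  φ _ y := (∑ i : Fin n, if (i : ℕ) < 2 ^ m then y i else 0) / 2 ^ m

theorem alg_isMeas (n m : ℕ) : Pool.Agent.MCI.IsMeas (alg n m) := by
  unfold Pool.Agent.MCI.IsMeas alg
  simp only
  refine Measurable.div_const (Finset.measurable_sum _ fun i _ => ?_) _
  split_ifs
  · exact (measurable_pi_apply i).comp measurable_snd
  · exact measurable_const

theorem alg_out {n m : ℕ} (hm : 2 ^ m ≤ n) (f : Tor 2 → ℝ) (ω : (alg n m).Ω) :
    integ f - (alg n m).out ω f = gerr f (2 * m) m ω.1 ω.2 := by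
  unfold RandAlg.out alg gerr
  simp only
  congr 2
  rw [Fin.sum_univ_eq_sum_range (fun i : ℕ =>
    if i < 2 ^ m then f (if i < 2 ^ m then pnt (2 * m) m ω.1 i + ω.2 else 0) else 0) n]
  rw [← Finset.sum_subset (Finset.range_subset_range.2 hm)]
  · refine Finset.sum_congr rfl fun j hj => ?_
    rw [Finset.mem_range] at hj
    simp [hj]
  · intro j _ hj
    rw [Finset.mem_range] at hj
    simp [hj]

theorem lint_le {k : ℝ} (hk : 1 / 2 < k) (hk1 : k < 1) (m : ℕ) {f : Tor 2 → ℝ} (hf : f ∈ mixBall 2 k) :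
    ∫⁻ ω, ENNReal.ofReal |gerr f (2 * m) m ω.1 ω.2| ∂((uni (2 * m)).prod (unif 2)) ≤
      ENNReal.ofReal √(BB k m) := by
  have hcont : ∀ s, Continuous (gerr f (2 * m) m s) := fun s => continuous_gerr hf.1 (2 * m) m s
  have hmeas : Measurable (fun ω : (Scr (2 * m) × Scr (2 * m)) × Tor 2 => gerr f (2 * m) m ω.1 ω.2) :=
    measurable_from_prod_countable_right fun s => (hcont s).measurable
  have hB := BB_pos hk1 m
  set B := √(BB k m) with hBd
  have hB0 : 0 < B := Real.sqrt_pos.2 hB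
  have hBB : B * B = BB k m := Real.mul_self_sqrt hB.le
  set K : ℝ := (Fintype.card (Scr (2 * m) × Scr (2 * m)) : ℝ) with hKd
  have hK : 0 < K := by
    rw [hKd]
    exact_mod_cast Fintype.card_pos
  rw [lintegral_prod _ (by
    exact (ENNReal.measurable_ofReal.comp (by exact hmeas.abs)).aemeasurable)]
  rw [uni, lintegral_smul_measure, lintegral_count, tsum_fintype]
  have h1 : ∀ s : Scr (2 * m) × Scr (2 * m),
      ∫⁻ Δ, ENNReal.ofReal |gerr f (2 * m) m s Δ| ∂(unif 2) ≤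
      ENNReal.ofReal ((∫ Δ, gerr f (2 * m) m s Δ ^ 2 ∂(unif 2)) / (2 * B) + B / 2) := by
    intro s
    have hint : Integrable (fun Δ => gerr f (2 * m) m s Δ ^ 2) (unif 2) :=
      ((hcont s).pow 2).integrable_of_hasCompactSupport (HasCompactSupport.of_compactSpace _)
    have e : (∫ Δ, gerr f (2 * m) m s Δ ^ 2 ∂(unif 2)) / (2 * B) + B / 2 =
        ∫ Δ, (gerr f (2 * m) m s Δ ^ 2 / (2 * B) + B / 2) ∂(unif 2) := by
      rw [integral_add (hint.div_const _) (integrable_const _), integral_div, integral_const]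
      simp
    have hint2 : Integrable (fun Δ => gerr f (2 * m) m s Δ ^ 2 / (2 * B) + B / 2) (unif 2) :=
      (hint.div_const _).add (integrable_const _)
    have hnn : 0 ≤ᵐ[unif 2] (fun Δ => gerr f (2 * m) m s Δ ^ 2 / (2 * B) + B / 2) :=
      Filter.Eventually.of_forall fun Δ => by
        have h1 : 0 ≤ gerr f (2 * m) m s Δ ^ 2 / (2 * B) := by positivity
        have h2 : 0 ≤ B / 2 := by positivity
        exact add_nonneg h1 h2
    rw [e, ofReal_integral_eq_lintegral_ofReal hint2 hnn]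
    refine lintegral_mono fun Δ => ENNReal.ofReal_le_ofReal ?_
    have h2 : |gerr f (2 * m) m s Δ| * (2 * B) ≤ gerr f (2 * m) m s Δ ^ 2 + B ^ 2 := by
      have := sq_nonneg (|gerr f (2 * m) m s Δ| - B)
      have h3 := sq_abs (gerr f (2 * m) m s Δ)
      nlinarith
    have h4 : gerr f (2 * m) m s Δ ^ 2 / (2 * B) + B / 2 =
        (gerr f (2 * m) m s Δ ^ 2 + B ^ 2) / (2 * B) := by
      field_simp
    rw [h4, le_div_iff₀ (by positivity)]
    exact h2
  have h2 : ∑ s : Scr (2 * m) × Scr (2 * m), ∫⁻ Δ, ENNReal.ofReal |gerr f (2 * m) m s Δ| ∂(unif 2) ≤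
      ENNReal.ofReal (K * B) := by
    refine (Finset.sum_le_sum fun s _ => h1 s).trans ?_
    rw [← ENNReal.ofReal_sum_of_nonneg]
    · refine ENNReal.ofReal_le_ofReal ?_
      rw [Finset.sum_add_distrib, ← Finset.sum_div]
      have h3 := mean_err hk hk1 m hf
      have h4 : (∑ s : Scr (2 * m) × Scr (2 * m), ∫ Δ, gerr f (2 * m) m s Δ ^ 2 ∂(unif 2)) / (2 * B) ≤
          K * (B * B) / (2 * B) := by
        rw [hBB]
        exact div_le_div_of_nonneg_right h3 (by positivity)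
      have h5 : K * (B * B) / (2 * B) = K * (B / 2) := by field_simp
      have h6 : ∑ s : Scr (2 * m) × Scr (2 * m), B / 2 = K * (B / 2) := by
        rw [Finset.sum_const, nsmul_eq_mul, hKd]
        rfl
      rw [h6]
      rw [h5] at h4
      linarith
    · intro s _
      have : 0 ≤ ∫ Δ, gerr f (2 * m) m s Δ ^ 2 ∂(unif 2) := integral_nonneg fun Δ => sq_nonneg _
      positivity
  have hKe : (Fintype.card (Scr (2 * m) × Scr (2 * m)) : ℝ≥0∞) = ENNReal.ofReal K := by
    rw [hKd, ENNReal.ofReal_natCast]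
  rw [hKe, smul_eq_mul, ← ENNReal.ofReal_inv_of_pos hK]
  refine (mul_le_mul_right h2 _).trans ?_
  rw [← ENNReal.ofReal_mul (by positivity)]
  refine ENNReal.ofReal_le_ofReal (le_of_eq ?_)
  field_simp

end Pool.Agent.Helper7.ER

namespace Pool.Agent.MCI

open Pool.Agent.Helper59.MixInt Pool.Agent.Helper7.ER

/-- Upper bound for the optimal Monte Carlo error, `d = 2`, `1 / 2 < k < 1`. -/
theorem eRan_le {k : ℝ} (hk : 1 / 2 < k) (hk1 : k < 1) : ∃ C : ℝ, 0 < C ∧ ∀ n : ℕ, 2 ≤ n →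
    eRan 2 k n ≤ ENNReal.ofReal (C * (n : ℝ) ^ (-(k + 1 / 2))) := by
  have hC := CC_pos hk1
  refine ⟨4 * √(CC k), by positivity, fun n hn => ?_⟩
  set m := Nat.log 2 n with hm
  have h1 : 2 ^ m ≤ n := Nat.pow_log_le_self 2 (by omega)
  have h2 : n < 2 ^ (m + 1) := Nat.lt_pow_succ_log_self (by norm_num) n
  refine eRan_le_of (alg n m) (alg_isMeas n m) fun f hf => ?_
  have h3 : ∫⁻ ω, ENNReal.ofReal |integ f - (alg n m).out ω f| ∂(alg n m).μ ≤ ENNReal.ofReal √(BB k m) := by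
    have e : ∀ ω : (alg n m).Ω, ENNReal.ofReal |integ f - (alg n m).out ω f| =
        ENNReal.ofReal |gerr f (2 * m) m ω.1 ω.2| := fun ω => by rw [alg_out h1]
    simp only [e]
    exact lint_le hk hk1 m hf
  refine h3.trans (ENNReal.ofReal_le_ofReal ?_)
  have hN : (0 : ℝ) < 2 ^ m := by positivity
  have hn0 : (0 : ℝ) < n := by
    have : 0 < n := by omega
    exact_mod_cast this
  have h4 : (n : ℝ) / 2 ≤ 2 ^ m := by
    have : (n : ℝ) < 2 ^ (m + 1) := by exact_mod_cast h2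
    rw [pow_succ] at this
    linarith
  have h5 : √(BB k m) = √(CC k) * ((2 : ℝ) ^ m) ^ (-(k + 1 / 2)) := by
    rw [← Real.sqrt_sq (show 0 ≤ ((2 : ℝ) ^ m) ^ (-(k + 1 / 2)) by positivity), ← Real.sqrt_mul hC.le]
    congr 1
    unfold BB
    rw [div_eq_mul_inv]
    congr 1
    rw [← Real.rpow_natCast (((2 : ℝ) ^ m) ^ (-(k + 1 / 2))) 2, ← Real.rpow_mul hN.le]
    have e : ((2 : ℝ) ^ m) ^ (2 * k) * 2 ^ m = ((2 : ℝ) ^ m) ^ (2 * k + 1) := by
      rw [Real.rpow_add hN, Real.rpow_one]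
    rw [e, ← Real.rpow_neg hN.le]
    congr 1
    push_cast
    ring
  rw [h5]
  have h6 : ((2 : ℝ) ^ m) ^ (-(k + 1 / 2)) ≤ 4 * (n : ℝ) ^ (-(k + 1 / 2)) := by
    calc ((2 : ℝ) ^ m) ^ (-(k + 1 / 2)) ≤ ((n : ℝ) / 2) ^ (-(k + 1 / 2)) :=
          Real.rpow_le_rpow_of_nonpos (by positivity) h4 (by linarith)
      _ = 2 ^ (k + 1 / 2) * (n : ℝ) ^ (-(k + 1 / 2)) := by
          rw [Real.div_rpow hn0.le (by norm_num), Real.rpow_neg (by norm_num : (0 : ℝ) ≤ 2)]
          field_simp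
      _ ≤ 4 * (n : ℝ) ^ (-(k + 1 / 2)) := by
          refine mul_le_mul_of_nonneg_right ?_ (by positivity)
          calc (2 : ℝ) ^ (k + 1 / 2) ≤ 2 ^ (2 : ℝ) :=
                Real.rpow_le_rpow_of_exponent_le (by norm_num) (by linarith)
            _ = 4 := by norm_num
  calc √(CC k) * ((2 : ℝ) ^ m) ^ (-(k + 1 / 2)) ≤ √(CC k) * (4 * (n : ℝ) ^ (-(k + 1 / 2))) :=
        mul_le_mul_of_nonneg_left h6 (Real.sqrt_nonneg _)
    _ = 4 * √(CC k) * (n : ℝ) ^ (-(k + 1 / 2)) := by ring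

end Pool.Agent.MCI
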